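import Pool.Agent.BEZ.Stmts

set_option autoImplicit false

namespace Pool.Agent.BEZ.H77

open Finset

variable {K V ι : Type} [Field K] [AddCommGroup V] [Module K V]

/-- the span of the sets with index in `S` -/
def sp (K : Type) {V ι : Type} [Field K] [AddCommGroup V] [Module K V] (A : ι → Finset V)
    (S : Finset ι) : Submodule K V :=
  Submodule.span K {v : V | ∃ j ∈ S, v ∈ A j}

theorem sp_le {A B : ι → Finset V} {S T : Finset ι} (h : ∀ j ∈ S, j ∈ T ∧ A j ⊆ B j) :
    sp K A S ≤ sp K B T := by
  refine Submodule.span_mono ?_
  rintro v ⟨j, hj, hv⟩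
  exact ⟨j, (h j hj).1, (h j hj).2 hv⟩

theorem rado [FiniteDimensional K V] [Fintype ι] : ∀ (N : ℕ) (A : ι → Finset V),
    (∑ j, (A j).card) = N → (∀ S : Finset ι, S.card ≤ Module.finrank K (sp K A S)) →
    ∃ v : ι → V, (∀ j, v j ∈ A j) ∧ LinearIndependent K v := by
  classical
  intro N
  induction N using Nat.strong_induction_on with
  | _ N ih =>
  intro A hN hC
  by_cases hall : ∀ j, (A j).card ≤ 1
  · have hne : ∀ j, (A j).Nonempty := by
      intro j
      rw [Finset.nonempty_iff_ne_empty]
      intro he
      have h1 := hC {j}
      have h2 : sp K A {j} = ⊥ := by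
        rw [sp, Submodule.span_eq_bot]
        rintro v ⟨i, hi, hv⟩
        rw [Finset.mem_singleton] at hi
        subst hi
        rw [he] at hv
        exact absurd hv (Finset.notMem_empty _)
      rw [h2, finrank_bot, Finset.card_singleton] at h1
      omega
    have hcard : ∀ j, (A j).card = 1 := fun j =>
      le_antisymm (hall j) (Finset.card_pos.mpr (hne j))
    choose v hv using fun j => Finset.card_eq_one.mp (hcard j)
    refine ⟨v, fun j => by rw [hv j]; exact Finset.mem_singleton_self _, ?_⟩
    rw [linearIndependent_iff_card_le_finrank_span]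
    have h1 := hC Finset.univ
    have h2 : {w : V | ∃ j ∈ (Finset.univ : Finset ι), w ∈ A j} = Set.range v := by
      ext w
      constructor
      · rintro ⟨j, _, hw⟩
        rw [hv j, Finset.mem_singleton] at hw
        exact ⟨j, hw.symm⟩
      · rintro ⟨j, rfl⟩
        exact ⟨j, Finset.mem_univ _, by rw [hv j]; exact Finset.mem_singleton_self _⟩
    rw [sp, h2, Finset.card_univ] at h1
    exact h1
  · push Not at hall
    obtain ⟨j0, hj0⟩ := hall
    obtain ⟨x, hx, y, hy, hxy⟩ := Finset.one_lt_card.mp hj0
    have hup : ∀ z ∈ A j0, ∀ (B : ι → Finset V), B = Function.update A j0 ((A j0).erase z) →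
        (∀ S : Finset ι, S.card ≤ Module.finrank K (sp K B S)) →
        ∃ v : ι → V, (∀ j, v j ∈ A j) ∧ LinearIndependent K v := by
      intro z hz B hB hCB
      have hlt : ∑ j, (B j).card < N := by
        rw [← hN]
        refine Finset.sum_lt_sum ?_ ⟨j0, Finset.mem_univ _, ?_⟩
        · intro j _
          rw [hB]
          by_cases hj : j = j0
          · subst hj
            rw [Function.update_self]
            exact Finset.card_le_card (Finset.erase_subset _ _)
          · rw [Function.update_of_ne hj]
        · rw [hB, Function.update_self]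
          exact Finset.card_erase_lt_of_mem hz
      obtain ⟨v, hv1, hv2⟩ := ih _ hlt B rfl hCB
      refine ⟨v, fun j => ?_, hv2⟩
      have := hv1 j
      rw [hB] at this
      by_cases hj : j = j0
      · subst hj
        rw [Function.update_self] at this
        exact Finset.mem_of_mem_erase this
      · rwa [Function.update_of_ne hj] at this
    by_cases h1 : ∀ S : Finset ι, S.card ≤
        Module.finrank K (sp K (Function.update A j0 ((A j0).erase x)) S)
    · exact hup x hx _ rfl h1
    by_cases h2 : ∀ S : Finset ι, S.card ≤
        Module.finrank K (sp K (Function.update A j0 ((A j0).erase y)) S)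
    · exact hup y hy _ rfl h2
    exfalso
    push Not at h1 h2
    obtain ⟨S, hS⟩ := h1
    obtain ⟨T, hT⟩ := h2
    have hin : ∀ (z : V) (S : Finset ι),
        Module.finrank K (sp K (Function.update A j0 ((A j0).erase z)) S) < S.card → j0 ∈ S := by
      intro z S hS
      by_contra hn
      have h3 : sp K A S ≤ sp K (Function.update A j0 ((A j0).erase z)) S := by
        refine sp_le fun j hj => ⟨hj, ?_⟩
        have : j ≠ j0 := fun he => hn (he ▸ hj)
        rw [Function.update_of_ne this]
      have h4 := Submodule.finrank_mono h3
      have h5 := hC S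
      omega
    have hjS := hin x S hS
    have hjT := hin y T hT
    set U1 := sp K (Function.update A j0 ((A j0).erase x)) S with hU1
    set U2 := sp K (Function.update A j0 ((A j0).erase y)) T with hU2
    have hsup : sp K A (S ∪ T) ≤ U1 ⊔ U2 := by
      rw [sp, Submodule.span_le]
      rintro v ⟨j, hj, hv⟩
      rw [Finset.mem_union] at hj
      by_cases hjj : j = j0
      · subst hjj
        by_cases hvx : v = x
        · refine Submodule.mem_sup_right (Submodule.subset_span ⟨j, hjT, ?_⟩)
          rw [Function.update_self]
          exact Finset.mem_erase.mpr ⟨fun h => hxy (hvx.symm.trans h), hv⟩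
        · refine Submodule.mem_sup_left (Submodule.subset_span ⟨j, hjS, ?_⟩)
          rw [Function.update_self]
          exact Finset.mem_erase.mpr ⟨hvx, hv⟩
      · rcases hj with hj | hj
        · refine Submodule.mem_sup_left (Submodule.subset_span ⟨j, hj, ?_⟩)
          rwa [Function.update_of_ne hjj]
        · refine Submodule.mem_sup_right (Submodule.subset_span ⟨j, hj, ?_⟩)
          rwa [Function.update_of_ne hjj]
    have hinf : sp K A ((S ∩ T).erase j0) ≤ U1 ⊓ U2 := by
      refine le_inf (sp_le fun j hj => ?_) (sp_le fun j hj => ?_)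
      · rw [Finset.mem_erase, Finset.mem_inter] at hj
        refine ⟨hj.2.1, ?_⟩
        rw [Function.update_of_ne hj.1]
      · rw [Finset.mem_erase, Finset.mem_inter] at hj
        refine ⟨hj.2.2, ?_⟩
        rw [Function.update_of_ne hj.1]
    have e1 := Submodule.finrank_sup_add_finrank_inf_eq U1 U2
    have e2 := (hC (S ∪ T)).trans (Submodule.finrank_mono hsup)
    have e3 := (hC ((S ∩ T).erase j0)).trans (Submodule.finrank_mono hinf)
    have e4 := Finset.card_union_add_card_inter S T
    have e5 := Finset.card_erase_add_one (Finset.mem_inter.mpr ⟨hjS, hjT⟩)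
    omega

theorem rdo : RdoStmt := by
  intro K V ι _ _ _ _ _ A h
  exact rado _ A rfl h

end Pool.Agent.BEZ.H77
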